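import Mathlib
import Pool.Agent.Lib_helper35.FGRF.LawNeg
import Pool.Agent.FGRL.Neg

/-!
# Soluble varieties of groups whose finitely generated groups are residually finite

Let `L` be a set of laws such that all groups satisfying `L` are soluble of derived length at most
`d`. The following are equivalent:

1. every finitely generated group satisfying `L` is residually finite;
2. `L` holds in none of the groups `X p` (`p` prime) and `S p q` (`p ≠ q` primes);
3. for some `n ≥ 1` law (A) holds in all centre-by-metabelian groups satisfying `L`, and law (B)
   holds in all groups of derived length at most three satisfying `L`;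
4. for some `n ≥ 1` all groups satisfying `L` satisfy the single law `L_n(t, y, z) = 1`;
5. every group satisfying `L` which is generated by three elements is residually finite.

Outline of the proof of (2) ⇒ (1).

* Laws which fail in `(ℤ/q) ≀ ((ℤ/p) ≀ ℤ)` for all primes `p, q` give constants `n, s, K` such that
  `∏ (ρ ((tⁿ - 1)ˢ aᵢ) - 1) = 0` (`K` factors) on every abelian normal section `M` with
  `M ⋊ H` in the variety, for all `t` normalising an abelian group of automorphisms
  (`propU_group`).
* The relations which hold in all commutator pairings `D × N → C` of sections of groups of the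
  variety form an ideal of `ℤ[s, u, s⁻¹, u⁻¹]`, stable under `s ↦ sᵏ, u ↦ uᵏ`.  If no `X p` lies in
  the variety, it contains a product of elements `sᵃ vᵇ - 1` (`v = s u`, `a ≥ 1`), and some
  `(s^n' - 1)^r'` modulo `(vⁿ - 1)ʳ` (`pba`, `pbb`).
* Hence (with P. Hall's theorems on modules over finitely generated nilpotent groups, which are
  proved here, too) a finitely generated nilpotent-by-nilpotent group of the variety satisfies the
  maximal condition for normal subgroups inside the nilpotent kernel (`stepA`) and is residually
  finite (`stepB`).
* Let `G` be such a group, acting on an abelian group `M` with `M ⋊ G` in the variety. The largest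
  normal subgroup `B` of `G` inside the nilpotent kernel which acts nilpotently on `M` has a
  virtually nilpotent quotient `G ⧸ B` (`stepC`). By induction on the derived length every finitely
  generated group of the variety is virtually nilpotent-by-nilpotent (`stepD`), and (1) follows.

(2) ⇒ (4): the relatively free group `F` on `t, y, z` is virtually nilpotent-by-nilpotent. So, for a
suitable `n`, the elements `x = eng n t y`, `x' = eng n t z` lie in a nilpotent normal subgroup.
Conjugation by `t` and the endomorphism `y ↦ t y t⁻¹` of `F` induce commuting operators on the lower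
central factors of the normal closure of `x, x'` in `⟨t, x, x'⟩`, and the relations above, carried
from one factor to the next, show that the operators of `L_n` kill `[x, x']` (`Pool.Agent.FGRL`).
(4) ⇒ (2): `L_n` fails in `X p` and in every restricted wreath product `A ≀ ℤ`, `A` not abelian.
-/

set_option autoImplicit false

namespace Pool.Agent.Results.MP_364ede_al.SolubleFGRF

open Pool.Agent.FGRF Pool.Agent.FGRL

universe u

/-- **Theorem.** Description of the soluble varieties whose finitely generated groups are
residually finite. -/
theorem result (L : Set (FreeGroup ℕ)) (d : ℕ)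
    (hd : ∀ (G : Type u) [Group G], Sat L G → derivedSeries G d = ⊥) :
    [ -- every finitely generated group satisfying `L` is residually finite
      ∀ (G : Type u) [Group G], Sat L G → Group.FG G → Group.ResiduallyFinite G,
      -- `L` fails in all the groups `X p` and `S p q`
      (∀ p : ℕ, p.Prime → ¬ Sat L (X p)) ∧
        (∀ p q : ℕ, p.Prime → q.Prime → p ≠ q → ¬ Sat L (S p q)),
      -- laws (A) and (B)
      ∃ n : ℕ, 1 ≤ n ∧
        (∀ (G : Type u) [Group G], Sat L G → (∀ a ∈ derivedSeries G 2, ∀ g : G, a * g = g * a) →
          LawA n G) ∧
        (∀ (G : Type u) [Group G], Sat L G → derivedSeries G 3 = ⊥ → LawB n G),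
      -- the laws `L_n`
      ∃ n : ℕ, 1 ≤ n ∧ ∀ (G : Type u) [Group G], Sat L G → ∀ t y z : G, lawL n t y z = 1,
      -- every three-generator group satisfying `L` is residually finite
      ∀ (G : Type u) [Group G], Sat L G → (∃ a b c : G, Subgroup.closure {a, b, c} = ⊤) →
        Group.ResiduallyFinite G].TFAE := by
  have hsol : ∀ (G : Type u) [Group G], Sat L G → Group.IsSolvable G := fun G _ h => ⟨⟨d, hd G h⟩⟩
  tfae_have 2 → 1 := fun h G _ hsat hfg => rf_of h.1 h.2 G hfg hsat (hsol G hsat)
  tfae_have 2 → 3 := fun h => laws_of h.1 h.2
  tfae_have 1 → 2 := by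
    intro h
    constructor
    · intro p hp hsat
      exact X_not_rf hp (rf_transfer MulEquiv.ulift (h (ULift.{u} (X p))
        (sat_transfer MulEquiv.ulift.symm hsat) (fg_transfer MulEquiv.ulift.symm (X_fg hp))))
    · intro p q hp hq _ hsat
      exact S_not_rf hp hq (rf_transfer MulEquiv.ulift (h (ULift.{u} (S p q))
        (sat_transfer MulEquiv.ulift.symm hsat) (fg_transfer MulEquiv.ulift.symm (S_fg hp hq))))
  tfae_have 3 → 2 := by
    rintro ⟨n, hn, hA, hB⟩
    constructor
    · intro p hp hsat
      exact X_not_LawA p hp n hn (lawA_transfer MulEquiv.ulift n (hA (ULift.{u} (X p))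
        (sat_transfer MulEquiv.ulift.symm hsat) (cbm_transfer MulEquiv.ulift.symm (X_lawA p hp))))
    · intro p q hp hq hpq hsat
      exact S_not_LawB p q hp hq hpq n hn (lawB_transfer MulEquiv.ulift n (hB (ULift.{u} (S p q))
        (sat_transfer MulEquiv.ulift.symm hsat)
        (derived_bot_transfer MulEquiv.ulift.symm 3 (S_lawB p q hp hq))))
  tfae_have 2 → 4 := fun h => laws_L L d hd h.1 h.2
  tfae_have 4 → 2 := fun h => laws_L_neg h
  tfae_have 1 → 5 := fun h G _ hsat ⟨a, b, c, hgen⟩ =>
    h G hsat (Group.fg_iff.2 ⟨{a, b, c}, hgen, by simp⟩)
  tfae_have 5 → 2 := fun h => three h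
  tfae_finish

end Pool.Agent.Results.MP_364ede_al.SolubleFGRF
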